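import Pool.Agent.Q282.UZ.Sys

/-!
# Finite generation of étale motivic cohomology: definitions
-/

set_option autoImplicit false

open CategoryTheory AlgebraicGeometry Pool.Agent.Y116.UV Pool.Agent.Q282.UZ

namespace Pool.Agent.W5h93.FG

/-- The properties, for one weight `n < 0`, of the groups `H i X = H^i(X_et, ℤ^c(n))` of the arithmetic
schemes `X` which are used.

* `isLocal`: invariance under isomorphisms; the long exact localization sequences
  `⋯ → H^i(Z) → H^i(X) → H^i(U) → H^{i+1}(Z) → ⋯` for a closed subscheme `Z` of `X` and its complement
  `U`; and for an affine scheme `X` of finite type the group `H^i(X)` is a direct factor of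
  `H^{i-1}(X × 𝔾_m)` (the localization sequence of `X × 0` in `X × 𝔸^1` is split by the product with
  the coordinate);
* `transfer`: for finite flat surjective morphisms `V → U` of integral schemes the composition
  `H^i(U) → H^i(V) → H^i(U)` of the pull-back and the push-forward is the multiplication by the degree;
* `torsion`: the kernels of the multiplications by integers `d ≥ 1` on `H^i(X)` are finitely
  generated (they are quotients of `H^{i-1}(X_et, ℤ/d^c(n))`, which is finite as `n < 0`). -/
structure IsEtaleMotivic (H : ℤ → Sch ℤ → ModuleCat.{0} ℤ) : Prop where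
  isLocal : IsLocal True H (Equiv.addRight (1 : ℤ)) (Equiv.addRight (-1 : ℤ))
  transfer : HasTransfer H
  torsion : TorsionFinite H

/-- All the groups `H^i(X)` are finitely generated. -/
def AllFG (H : ℤ → Sch ℤ → ModuleCat.{0} ℤ) (X : Sch ℤ) : Prop :=
  ∀ i, Module.Finite ℤ (H i X)

/-- All local rings of the scheme are regular. -/
def Regular (X : Sch ℤ) : Prop := ∀ x : X.left, IsRegularLocalRing (X.left.presheaf.stalk x)

end Pool.Agent.W5h93.FG
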